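import Mathlib
import Pool.Agent.H735G.Defs

/-!
ROOM GEN, BLOCK 2 (freeness), definitions.  Owner: helper270.
-/

set_option autoImplicit false

open scoped ComplexOrder Topology BoundedContinuousFunction
open Filter

noncomputable section

namespace Pool.Agent.H270G

open Pool.Agent.H467F Pool.Agent.H735G

/-- The centre of `A`. -/
def Zc (A : Type) [CStarAlgebra A] : StarSubalgebra ℂ A :=
  StarSubalgebra.centralizer ℂ (Set.univ : Set A)

variable {A : Type} [CStarAlgebra A]

/-- The centre valued trace. -/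
def EZ (τ : A →ₗ[ℂ] ℂ) (x : A) : A := E τ (Zc A) x

/-- Properties of the centre valued trace. -/
structure EZP (τ : A →ₗ[ℂ] ℂ) : Prop where
  isW : IsW τ (Zc A)
  mem : ∀ x, EZ τ x ∈ Zc A
  comm : ∀ x y, EZ τ x * y = y * EZ τ x
  cyc : ∀ x y, EZ τ (x * y) = EZ τ (y * x)
  conj : ∀ (u : unitary A) x, EZ τ ((u : A) * x * star (u : A)) = EZ τ x
  add : ∀ x y, EZ τ (x + y) = EZ τ x + EZ τ y
  sub : ∀ x y, EZ τ (x - y) = EZ τ x - EZ τ y
  smul : ∀ (c : ℂ) x, EZ τ (c • x) = c • EZ τ x
  star : ∀ x, EZ τ (star x) = star (EZ τ x)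
  of_mem : ∀ x, (∀ y, x * y = y * x) → EZ τ x = x
  left : ∀ z x, (∀ y, z * y = y * z) → EZ τ (z * x) = z * EZ τ x
  trace : ∀ x, τ (EZ τ x) = τ x
  n2_le : ∀ x, n2 τ (EZ τ x) ≤ n2 τ x
  norm_le : ∀ x, ‖EZ τ x‖ ≤ ‖x‖
  unique : ∀ x y, (∀ a, y * a = a * y) → (∀ z, (∀ a, z * a = a * z) → τ (z * (x - y)) = 0) →
    y = EZ τ x

/-- The average over the Pauli strings of the first `k` pairs. -/
def av (s t : ℕ → A) : ℕ → A → A
  | 0, y => y
  | k + 1, y => (4⁻¹ : ℂ) • (av s t k y + s k * av s t k y * s k + t k * av s t k y * t k +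
      (s k * t k) * av s t k y * (t k * s k))

/-- The first `K` pairs are commuting pairs of anticommuting symmetries. -/
structure PauK (s t : ℕ → A) (K : ℕ) : Prop where
  ss : ∀ j < K, star (s j) = s j
  s1 : ∀ j < K, s j * s j = 1
  ts : ∀ j < K, star (t j) = t j
  t1 : ∀ j < K, t j * t j = 1
  anti : ∀ j < K, s j * t j = -(t j * s j)
  css : ∀ j < K, ∀ k < K, s j * s k = s k * s j
  ctt : ∀ j < K, ∀ k < K, t j * t k = t k * t j
  cst : ∀ j < K, ∀ k < K, j ≠ k → s j * t k = t k * s j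

/-- The algebra generated by the pairs (norm closed). -/
def NN (s t : ℕ → A) : StarSubalgebra ℂ A :=
  (StarAlgebra.adjoin ℂ (Set.range s ∪ Set.range t)).topologicalClosure

/-- There are finite families of symmetries in `N` which average every element to its centre valued
trace, and which are almost orthogonal to every element. -/
def Mixing (τ : A →ₗ[ℂ] ℂ) (N : StarSubalgebra ℂ A) : Prop :=
  ∀ (Y : Finset A) (ε : ℝ), 0 < ε → ∃ (G : Type) (_ : Fintype G) (_ : Nonempty G) (V : G → A),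
    (∀ g, V g ∈ N ∧ star (V g) = V g ∧ V g * V g = 1) ∧
    (∀ x ∈ Y, n2 τ ((Fintype.card G : ℂ)⁻¹ • (∑ g, V g * x * V g) - EZ τ x) ≤ ε) ∧
    (∀ x ∈ Y, (Fintype.card G : ℝ)⁻¹ * ∑ g, n2 τ (EZ τ (V g * x)) ^ 2 ≤ ε)

/-! ### Words -/

/-- A letter `c_i ^ (±1) * y_j`: colour, sign, coefficient. -/
abbrev Lt (J : Type) : Type := Fin 4 × Bool × J

/-- The unitary of a letter. -/
def cl (c : Fin 4 → A) (i : Fin 4) (e : Bool) : A := if e = true then c i else star (c i)

/-- The value of a list of letters. -/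
def wv {J : Type} (c : Fin 4 → A) (y : J → A) : List (Lt J) → A
  | [] => 1
  | p :: L => cl c p.1 p.2.1 * y p.2.2 * wv c y L

/-- Reduced lists: no letter is followed by a letter of the same colour with the other sign. -/
def Red {J : Type} (L : List (Lt J)) : Prop :=
  L.IsChain (fun a b => ¬ (a.1 = b.1 ∧ a.2.1 ≠ b.2.1))

/-- The number of letters of colour `i`. -/
def cnt {J : Type} (i : Fin 4) : List (Lt J) → ℕ
  | [] => 0
  | p :: L => (if p.1 = i then 1 else 0) + cnt i L

/-- First order variation in the direction `V` of colour `i`. -/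
def D1 {J : Type} (c : Fin 4 → A) (y : J → A) (i : Fin 4) (V : A) : List (Lt J) → A
  | [] => 0
  | p :: L => cl c p.1 p.2.1 * y p.2.2 * D1 c y i V L +
      (if p.1 = i then
        (if p.2.1 = true then c i * V * y p.2.2 * wv c y L
          else -(V * star (c i) * y p.2.2 * wv c y L)) else 0)

/-- Second order variation in the direction `V` of colour `i`. -/
def D2 {J : Type} (c : Fin 4 → A) (y : J → A) (i : Fin 4) (V : A) : List (Lt J) → A
  | [] => 0
  | p :: L => cl c p.1 p.2.1 * y p.2.2 * D2 c y i V L +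
      (if p.1 = i then
        (if p.2.1 = true then c i * V * y p.2.2 * D1 c y i V L
          else -(V * star (c i) * y p.2.2 * D1 c y i V L)) else 0)

/-- The rotation `sqrt (1 - b²) + i ε b V` (a unitary if `V` is a symmetry and `ε = ±1`). -/
def rot (V : A) (b ε : ℝ) : A :=
  ((Real.sqrt (1 - b ^ 2) : ℝ) : ℂ) • (1 : A) + (Complex.I * (b * ε : ℝ)) • V

/-- One step of the walk: multiply colour `i` by `R` on the right. -/
def upd (c : Fin 4 → A) (i : Fin 4) (R : A) : Fin 4 → A := Function.update c i (c i * R)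

/-- The conclusion of the random walk argument. -/
def Walk (τ : A →ₗ[ℂ] ℂ) (N : StarSubalgebra ℂ A) : Prop :=
  ∀ (J : Type) [Fintype J] (y : J → A), (∀ j, ‖y j‖ ≤ 1) → ∀ (D : ℕ) (δ : ℝ), 0 < δ →
    ∃ c : Fin 4 → unitary A, (∀ i, (c i : A) ∈ N) ∧
      ∀ (j0 : J) (L : List (Lt J)), L ≠ [] → L.length ≤ D → Red L →
        n2 τ (EZ τ (y j0 * wv (fun i => (c i : A)) y L)) ≤ δ

end Pool.Agent.H270G
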