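import Mathlib
import Pool.Agent.H270R2.GEN.Defs
import Pool.Agent.Helper467.FP.P_ep
import Pool.Agent.H649G.RelComm

/-! REL: the relative commutant of finitely many pairs (helper155). -/

set_option autoImplicit false
set_option linter.unusedSimpArgs false

open scoped ComplexOrder Topology BoundedContinuousFunction
open Filter

noncomputable section

namespace Pool.Agent.H270G

open Pool.Agent.H467F Pool.Agent.H735G Pool.Agent.H649G

/-- the average is in the relative commutant -/
theorem rel_avg {A : Type} [Ring A] {s t : A} (hs1 : s * s = 1) (ht1 : t * t = 1)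
    (hts : t * s = -(s * t)) (y : A) :
    s * (y + s * y * s + t * y * t + (s * t) * y * (t * s)) =
      (y + s * y * s + t * y * t + (s * t) * y * (t * s)) * s ∧
    t * (y + s * y * s + t * y * t + (s * t) * y * (t * s)) =
      (y + s * y * s + t * y * t + (s * t) * y * (t * s)) * t := by
  have hs1' : ∀ x : A, s * (s * x) = x := fun x => by rw [← mul_assoc, hs1, one_mul]
  have ht1' : ∀ x : A, t * (t * x) = x := fun x => by rw [← mul_assoc, ht1, one_mul]
  have hts' : ∀ x : A, t * (s * x) = -(s * (t * x)) := fun x => by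
    rw [← mul_assoc, hts, neg_mul, mul_assoc]
  constructor
  · simp only [mul_add, add_mul, mul_assoc, hs1, ht1, hts, hs1', ht1', hts', mul_neg, neg_mul,
      neg_neg, mul_one]
    abel
  · simp only [mul_add, add_mul, mul_assoc, hs1, ht1, hts, hs1', ht1', hts', mul_neg, neg_mul,
      neg_neg, mul_one]
    abel

/-- decomposition of an element along the four Pauli matrices -/
theorem rel_dec {A : Type} [Ring A] {s t : A} (hs1 : s * s = 1) (ht1 : t * t = 1)
    (hts : t * s = -(s * t)) (x : A) :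
    (x + s * x * s + t * x * t + (s * t) * x * (t * s)) +
    s * (s * x + s * (s * x) * s + t * (s * x) * t + (s * t) * (s * x) * (t * s)) +
    t * (t * x + s * (t * x) * s + t * (t * x) * t + (s * t) * (t * x) * (t * s)) +
    (s * t) * ((t * s) * x + s * ((t * s) * x) * s + t * ((t * s) * x) * t +
      (s * t) * ((t * s) * x) * (t * s)) = 4 • x := by
  have hs1' : ∀ x : A, s * (s * x) = x := fun x => by rw [← mul_assoc, hs1, one_mul]
  have ht1' : ∀ x : A, t * (t * x) = x := fun x => by rw [← mul_assoc, ht1, one_mul]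
  have hts' : ∀ x : A, t * (s * x) = -(s * (t * x)) := fun x => by
    rw [← mul_assoc, hts, neg_mul, mul_assoc]
  simp only [mul_add, add_mul, mul_assoc, hs1, ht1, hts, hs1', ht1', hts', mul_neg, neg_mul,
      neg_neg, mul_one]
  abel

variable {A : Type} [CStarAlgebra A] {τ : A →ₗ[ℂ] ℂ}

theorem rel_mem_Zc {z : A} : z ∈ Zc A ↔ ∀ a, a * z = z * a := by
  unfold Zc
  rw [StarSubalgebra.mem_centralizer_iff]
  exact ⟨fun h a => (h a (Set.mem_univ a)).1, fun h g _ => ⟨h g, h (star g)⟩⟩

theorem rel_isW_Zc (h : TW τ) : IsW τ (Zc A) := by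
  intro x hx
  rw [rel_mem_Zc]
  exact fun a => cl_comm h _ a (fun y hy => rel_mem_Zc.1 hy a) x hx

/-- an element of the relative commutant which commutes with the relative commutant is central -/
theorem rel_central {s t : A} (hp : Pair s t) {z : A} (hz : z ∈ RC s t)
    (hc : ∀ a ∈ RC s t, a * z = z * a) (x : A) : x * z = z * x := by
  have hts : t * s = -(s * t) := by rw [hp.st, neg_neg]
  have hm : ∀ y : A, (y + s * y * s + t * y * t + (s * t) * y * (t * s)) ∈ RC s t := fun y => by
    rw [mem_RC hp.ss hp.ts]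
    exact rel_avg hp.s2 hp.t2 hts y
  obtain ⟨hzs, hzt⟩ := (mem_RC hp.ss hp.ts).1 hz
  have h4 : (4 • x) * z = z * (4 • x) := by
    rw [← rel_dec hp.s2 hp.t2 hts x]
    have a0 := hc _ (hm x)
    have a1 := hc _ (hm (s * x))
    have a2 := hc _ (hm (t * x))
    have a3 := hc _ (hm ((t * s) * x))
    generalize (x + s * x * s + t * x * t + (s * t) * x * (t * s)) = b0 at *
    generalize (s * x + s * (s * x) * s + t * (s * x) * t + (s * t) * (s * x) * (t * s)) = b1 at *
    generalize (t * x + s * (t * x) * s + t * (t * x) * t + (s * t) * (t * x) * (t * s)) = b2 at *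
    generalize ((t * s) * x + s * ((t * s) * x) * s + t * ((t * s) * x) * t +
      (s * t) * ((t * s) * x) * (t * s)) = b3 at *
    have e1 : s * b1 * z = z * (s * b1) := by
      rw [mul_assoc, a1, ← mul_assoc, hzs, mul_assoc]
    have e2 : t * b2 * z = z * (t * b2) := by
      rw [mul_assoc, a2, ← mul_assoc, hzt, mul_assoc]
    have e3 : s * t * b3 * z = z * (s * t * b3) := by
      rw [mul_assoc, a3, ← mul_assoc, mul_assoc s t z, hzt, ← mul_assoc s z t, hzs,
        mul_assoc z s t, mul_assoc]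
    rw [add_mul, add_mul, add_mul, mul_add, mul_add, mul_add, a0, e1, e2, e3]
  rw [smul_mul_assoc, mul_smul_comm] at h4
  have h5 : (4 : ℂ) • (x * z) = (4 : ℂ) • (z * x) := by
    have e : ∀ w : A, (4 : ℂ) • w = (4 : ℕ) • w := fun w => by
      rw [← Nat.cast_smul_eq_nsmul ℂ]
      norm_num
    rw [e, e]
    exact h4
  exact smul_right_injective A (by norm_num : (4 : ℂ) ≠ 0) h5

/-- one pair -/
theorem rel_one (h : TW τ) (hA : NoAbA A) {s t : A} (hp : Pair s t) :
    ∃ (B : Type) (_ : CStarAlgebra B) (ι : B →⋆ₐ[ℂ] A) (σ : B →ₗ[ℂ] ℂ),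
      TW σ ∧ NoAbA B ∧ Function.Injective ι ∧ (∀ b, ‖ι b‖ = ‖b‖) ∧ (∀ b, σ b = τ (ι b)) ∧
      (∀ x : A, s * x = x * s → t * x = x * t → ∃ b, ι b = x) ∧
      (∀ b, s * ι b = ι b * s ∧ t * ι b = ι b * t) ∧
      (∀ b, ι (EZ σ b) = EZ τ (ι b)) := by
  have hW := isW_RC h hp.ss hp.ts
  let _ := cs h (RC s t) hW
  have hB : TW (rt τ (RC s t)) := tw_rt h (RC s t) hW
  refine ⟨RC s t, cs h (RC s t) hW, (RC s t).subtype, rt τ (RC s t), hB, noab_RC h hA hp,
    Subtype.val_injective, fun b => rfl, fun b => rfl, ?_, ?_, ?_⟩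
  · intro x h1 h2
    exact ⟨⟨x, (mem_RC hp.ss hp.ts).2 ⟨h1, h2⟩⟩, rfl⟩
  · intro b
    exact (mem_RC hp.ss hp.ts).1 b.2
  · intro b
    have epA := ep h (Zc A) (rel_isW_Zc h)
    have epB := ep hB (Zc (RC s t)) (rel_isW_Zc hB)
    have hz : E (rt τ (RC s t)) (Zc (RC s t)) b ∈ Zc (RC s t) := epB.mem b
    refine epA.unique _ _ ?_ ?_
    · rw [rel_mem_Zc]
      refine rel_central hp (E (rt τ (RC s t)) (Zc (RC s t)) b).2 ?_
      intro a ha
      have := rel_mem_Zc.1 hz ⟨a, ha⟩
      exact congrArg Subtype.val this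
    · intro w hw
      have hwm : w ∈ RC s t := (mem_RC hp.ss hp.ts).2 ⟨rel_mem_Zc.1 hw s, rel_mem_Zc.1 hw t⟩
      have hwz : (⟨w, hwm⟩ : RC s t) ∈ Zc (RC s t) := by
        rw [rel_mem_Zc]
        intro a
        exact Subtype.ext (rel_mem_Zc.1 hw a)
      exact epB.orth b ⟨w, hwm⟩ hwz

/-- REL: the relative commutant of finitely many pairs. -/
theorem relc (h : TW τ) (hA : NoAbA A) (s t : ℕ → A) (K : ℕ) (hp : PauK s t K) :
    ∃ (B : Type) (_ : CStarAlgebra B) (ι : B →⋆ₐ[ℂ] A) (σ : B →ₗ[ℂ] ℂ),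
      TW σ ∧ NoAbA B ∧ Function.Injective ι ∧ (∀ b, ‖ι b‖ = ‖b‖) ∧ (∀ b, σ b = τ (ι b)) ∧
      (∀ x : A, (∀ j < K, s j * x = x * s j ∧ t j * x = x * t j) → ∃ b, ι b = x) ∧
      (∀ b, ∀ j < K, s j * ι b = ι b * s j ∧ t j * ι b = ι b * t j) ∧
      (∀ b, ι (EZ σ b) = EZ τ (ι b)) := by
  induction K with
  | zero =>
    refine ⟨A, inferInstance, StarAlgHom.id ℂ A, τ, h, hA, fun _ _ e => e, fun b => rfl,
      fun b => rfl, fun x _ => ⟨x, rfl⟩, fun b j hj => absurd hj (Nat.not_lt_zero j), fun b => rfl⟩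
  | succ K ih =>
    have hpK : PauK s t K :=
      { ss := fun j hj => hp.ss j (by omega)
        s1 := fun j hj => hp.s1 j (by omega)
        ts := fun j hj => hp.ts j (by omega)
        t1 := fun j hj => hp.t1 j (by omega)
        anti := fun j hj => hp.anti j (by omega)
        css := fun j hj k hk => hp.css j (by omega) k (by omega)
        ctt := fun j hj k hk => hp.ctt j (by omega) k (by omega)
        cst := fun j hj k hk => hp.cst j (by omega) k (by omega) }
    obtain ⟨B, _, ι, σ, hσ, hB, hinj, hnorm, htr, hsurj, hcomm, hez⟩ := ih hpK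
    obtain ⟨s', hs'⟩ := hsurj (s K) (fun j hj => ⟨hp.css j (by omega) K (by omega),
      (hp.cst K (by omega) j (by omega) (by omega)).symm⟩)
    obtain ⟨t', ht'⟩ := hsurj (t K) (fun j hj => ⟨hp.cst j (by omega) K (by omega) (by omega),
      hp.ctt j (by omega) K (by omega)⟩)
    have hpair : Pair s' t' := by
      refine ⟨hinj ?_, hinj ?_, hinj ?_, hinj ?_, hinj ?_⟩
      · rw [map_star, hs']; exact hp.ss K (by omega)
      · rw [map_star, ht']; exact hp.ts K (by omega)
      · rw [map_mul, map_one, hs']; exact hp.s1 K (by omega)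
      · rw [map_mul, map_one, ht']; exact hp.t1 K (by omega)
      · rw [map_neg, map_mul, map_mul, hs', ht']; exact hp.anti K (by omega)
    obtain ⟨C, _, κ, ρ, hρ, hC, kinj, knorm, ktr, ksurj, kcomm, kez⟩ := rel_one hσ hB hpair
    refine ⟨C, inferInstance, ι.comp κ, ρ, hρ, hC, ?_, ?_, ?_, ?_, ?_, ?_⟩
    · intro a b hab
      exact kinj (hinj hab)
    · intro b
      show ‖ι (κ b)‖ = ‖b‖
      rw [hnorm, knorm]
    · intro b
      show ρ b = τ (ι (κ b))
      rw [ktr, htr]
    · intro x hx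
      obtain ⟨b, hb⟩ := hsurj x (fun j hj => hx j (by omega))
      have hK := hx K (by omega)
      obtain ⟨c, hc⟩ := ksurj b (hinj (by rw [map_mul, map_mul, hs', hb]; exact hK.1))
        (hinj (by rw [map_mul, map_mul, ht', hb]; exact hK.2))
      exact ⟨c, by show ι (κ c) = x; rw [hc, hb]⟩
    · intro b j hj
      show s j * ι (κ b) = ι (κ b) * s j ∧ t j * ι (κ b) = ι (κ b) * t j
      rcases Nat.lt_succ_iff_lt_or_eq.1 hj with hj' | rfl
      · exact hcomm (κ b) j hj'
      · have := kcomm b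
        rw [← hs', ← ht', ← map_mul, ← map_mul, ← map_mul, ← map_mul, this.1, this.2]
        exact ⟨rfl, rfl⟩
    · intro b
      show ι (κ (EZ ρ b)) = EZ τ (ι (κ b))
      rw [kez, hez]

end Pool.Agent.H270G
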