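import Mathlib
import Pool.Agent.H735G.Defs2
import Pool.Agent.H270R2.GEN.Defs
import Pool.Agent.H231R2.GEN.AVP
import Pool.Agent.H401R2.GEN.AVG
import Pool.Agent.H255R2.GEN.CEN
import Pool.Agent.H847.GEN.DIX
import Pool.Agent.H143R2.GEN.T_GEN2
import Pool.Agent.H594R3.GEN.OneGen
import Pool.Agent.H844R3.GEN.Mix
import Pool.Agent.H457.GenPAUK
import Pool.Agent.H270R2.GEN.REL
import Pool.Agent.H676R2.GEN.T_SEQ
import Pool.Agent.H794R2.GEN.W1
import Pool.Agent.H948R2.GEN.W2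
import Pool.Agent.H504R2.GEN.W3
import Pool.Agent.H270R2.GEN.W5

/-!
ROOM GEN, BLOCK 2 (freeness): the random walk algebra.  Everything except the packaging FS.
-/

set_option autoImplicit false

open scoped ComplexOrder Topology
open Filter

noncomputable section

namespace Pool.Agent.H270G.Pre

open Pool.Agent.H467F Pool.Agent.H735G Pool.Agent.H270G

theorem sHalf : T_PAUK.S_HALF := by
  intro A _ τ h hA
  obtain ⟨s, t, h1, h2, h3, h4, h5⟩ := Pool.Agent.H594R3.GEN.exists_pair h hA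
  exact ⟨s, t, h1, h3, h2, h4, h5⟩

theorem sRel : T_PAUK.S_REL := by
  intro A _ τ h hA s t K hp
  exact relc h hA s t K hp

theorem sAvg : T_SEQ.HAvg := by
  intro A _ τ h hA y ε hε
  exact T_AVG.avg sHalf sRel (fun A _ τ h Y T δ hδ => T_DIX.dix h Y T δ hδ) h hA y ε hε

theorem sAvp : T_SEQ.HAvp := by
  intro A _ τ h s t K hp
  exact T_AVP.av_props_of h (T_CEN.ezp h) s t K hp

theorem oneStep {A : Type} [CStarAlgebra A] {τ : A →ₗ[ℂ] ℂ} (h : TW τ) : T_W5.OneStep τ := by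
  intro J c y hy j1 hj1 i j0 L hL S hS0 hS
  exact T_W3.one_step h (T_CEN.ezp h)
    (fun c hc y hy V hV hVs b ε h0 h1 hε hR i L =>
      expand c hc y hy V hV hVs b ε h0 h1 hε hR i L)
    (fun c hc y hy V hV i L => wv_bounds c hc y hy V hV i L)
    (fun c hc y hy i L => T_W2.ins1 c hc y hy i L)
    (fun c y hy j1 hj1 i L hL => T_W2.ins2 (T_CEN.ezp h) c y hy j1 hj1 i L hL)
    c y hy j1 hj1 i j0 L hL S hS0 hS

/-- The algebra `N` with two generators and the walk property. -/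
theorem main {A : Type} [CStarAlgebra A] {τ : A →ₗ[ℂ] ℂ} (h : TW τ) (hS : SepT τ)
    (hA : NoAbA A) :
    ∃ (N : StarSubalgebra ℂ A) (h₁ h₂ : A), star h₁ = h₁ ∧ star h₂ = h₂ ∧ h₁ ∈ N ∧ h₂ ∈ N ∧
      (∀ x ∈ N, x ∈ Cl τ (StarAlgebra.adjoin ℂ {h₁, h₂} : Set A)) ∧ Walk τ N := by
  obtain ⟨s, t, hp, hl⟩ := T_SEQ.pau_seq (fun A _ τ h => T_CEN.ezp h)
    (fun A _ τ h hA => sHalf A τ h hA) (fun A _ τ h hA s t K hp => sRel A τ h hA s t K hp)
    sAvp sAvg h hS hA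
  obtain ⟨h₁, h₂, a1, a2, a3, a4, a5⟩ := T_GEN2.two_gen h s t hp
  exact ⟨NN s t, h₁, h₂, a1, a2, a3, a4, a5,
    T_W5.walk h (oneStep h) _ (T_MIX.mixing (T_CEN.ezp h) h s t hp hl)⟩

end Pool.Agent.H270G.Pre
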