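import Mathlib
import Pool.Agent.H735G.Defs2
import Pool.Agent.H270R2.GEN.Pre
import Pool.Agent.Helper467.FP.P_tau_bounds

/-!
ROOM GEN, BLOCK 2 (freeness): packaging, and the final theorem.
-/

set_option autoImplicit false

open scoped ComplexOrder Topology
open Filter

noncomputable section

namespace Pool.Agent.H270G.FS2

open Pool.Agent.H467F Pool.Agent.H735G Pool.Agent.H270G

variable {A : Type} [CStarAlgebra A] {τ : A →ₗ[ℂ] ℂ}

/-- The index set of the coefficients: `y (a, b) = X a * star (X b)`. -/
abbrev J : Type := Option (Fin 4) × Option (Fin 4)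

def pre : List (Fin 4 × Bool) → Option (Fin 4)
  | [] => none
  | p :: _ => if p.2 = true then none else some p.1

def conv : List (Fin 4 × Bool) → List (Lt J)
  | [] => []
  | p :: L => (p.1, p.2, ((if p.2 = true then some p.1 else none), pre L)) :: conv L

theorem conv_length (L : List (Fin 4 × Bool)) : (conv L).length = L.length := by
  induction L with
  | nil => rfl
  | cons p L ih => simp [conv, ih]

theorem conv_ne {L : List (Fin 4 × Bool)} (h : L ≠ []) : conv L ≠ [] := by
  intro h1
  apply h
  rw [← List.length_eq_zero_iff, ← conv_length, h1]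
  rfl

theorem conv_map (L : List (Fin 4 × Bool)) :
    (conv L).map (fun q => (q.1, q.2.1)) = L := by
  induction L with
  | nil => rfl
  | cons p L ih => simp [conv, ih]

theorem red_conv {L : List (Fin 4 × Bool)} (h : FreeGroup.IsReduced L) : Red (conv L) := by
  rw [FreeGroup.IsReduced, ← conv_map L, List.isChain_map] at h
  refine List.IsChain.imp ?_ h
  intro a b hab hcon
  exact hcon.2 (hab hcon.1)

def X (x : Fin 4 → unitary A) (a : Option (Fin 4)) : unitary A := a.elim 1 x

def yy (x : Fin 4 → unitary A) (j : J) : A := ((X x j.1 * star (X x j.2) : unitary A) : A)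

theorem norm_unitary_le (u : unitary A) : ‖(u : A)‖ ≤ 1 := by
  rcases subsingleton_or_nontrivial A with h | h
  · rw [Subsingleton.elim (u : A) 0, norm_zero]; exact zero_le_one
  · exact (CStarRing.norm_coe_unitary u).le

theorem word (c x : Fin 4 → unitary A) (L : List (Fin 4 × Bool)) :
    ((star (X x (pre L)) : unitary A) : A) * wv (fun i => (c i : A)) (yy x) (conv L) =
      (((L.map fun p => cond p.2 (c p.1 * x p.1) (c p.1 * x p.1)⁻¹).prod : unitary A) : A) := by
  induction L with
  | nil => simp [pre, conv, wv, X]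
  | cons p L ih =>
    obtain ⟨i, e⟩ := p
    rw [List.map_cons, List.prod_cons, Submonoid.coe_mul, ← ih]
    cases e
    · have e1 : ∀ w : unitary A, ((w⁻¹ : unitary A) : A) = star (w : A) := fun w => rfl
      simp only [conv, wv, pre, cl, yy, X, Bool.false_eq_true, if_false, Option.elim, cond_false]
      simp [mul_assoc, e1]
    · simp only [conv, wv, pre, cl, yy, X, if_true, Option.elim, cond_true]
      simp [mul_assoc]

/-- FS, version 2. -/
theorem af_of_walk (h : TW τ) (hz : EZP τ) (N : StarSubalgebra ℂ A) (hW : Walk τ N) :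
    AF τ N := by
  intro u v S hS δ hδ
  set x : Fin 4 → unitary A := ![1, 1, u, v] with hx
  obtain ⟨c, hc, hcw⟩ := hW J (yy x) (fun j => norm_unitary_le _)
    (S.sup fun w => w.toWord.length) δ hδ
  refine ⟨c, hc, fun w hw => ?_⟩
  have hfun : (![c 0, c 1, c 2 * u, c 3 * v] : Fin 4 → unitary A) = fun i => c i * x i := by
    funext i
    fin_cases i <;> simp [hx]
  have hw1 : w ≠ 1 := fun h1 => hS (h1 ▸ hw)
  have hne : w.toWord ≠ [] := fun h1 => hw1 (FreeGroup.toWord_eq_nil_iff.1 h1)
  have hlen : (conv w.toWord).length ≤ S.sup fun w => w.toWord.length := by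
    rw [conv_length]
    exact Finset.le_sup (f := fun w : FreeGroup (Fin 4) => w.toWord.length) hw
  have h1 := hcw (none, pre w.toWord) (conv w.toWord) (conv_ne hne) hlen
    (red_conv FreeGroup.isReduced_toWord)
  have h2 : yy x (none, pre w.toWord) = ((star (X x (pre w.toWord)) : unitary A) : A) := by
    simp [yy, X]
  rw [h2, word] at h1
  rw [hfun]
  have h3 : FreeGroup.lift (fun i => c i * x i) w =
      (w.toWord.map fun p => cond p.2 (c p.1 * x p.1) (c p.1 * x p.1)⁻¹).prod := by
    conv_lhs => rw [← FreeGroup.mk_toWord (x := w)]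
    exact FreeGroup.lift_mk
  rw [h3]
  refine le_trans ?_ h1
  rw [← hz.trace]
  exact (tau_bounds h).1 _

end Pool.Agent.H270G.FS2

namespace Pool.Agent.H270G

open Pool.Agent.H467F Pool.Agent.H735G

/-- BLOCK 2 of ROOM GEN: freeness. -/
theorem freeness2 : FreenessThm2 := by
  intro A _ τ h hS hA
  obtain ⟨N, h₁, h₂, a1, a2, a3, a4, a5, hW⟩ := Pre.main h hS hA
  exact ⟨N, h₁, h₂, a1, a2, a3, a4, a5, FS2.af_of_walk h (T_CEN.ezp h) N hW⟩

end Pool.Agent.H270G
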