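import Mathlib
import Pool.Agent.H270R2.GEN.Defs
import Pool.Agent.Helper467.FP.P_ep
import Pool.Agent.Helper467.FP.P_E_contr
import Pool.Agent.Helper467.FP.P_exists_fixed
import Pool.Agent.Helper467.FP.P_n2_mul_le
import Pool.Agent.Helper467.FP.P_tau_bounds
import Pool.Agent.Helper467.FP.P_polar
import Pool.Agent.Helper467.FP.P_exists_lim
import Pool.Agent.Helper467.FP.P_averaging
import Pool.Agent.Helper467.FP.P_isClosed_of_isW

/-! ROOM GEN, BLOCK 2 (freeness): statements of the tasks (table h270g_tasks). -/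

set_option autoImplicit false

open scoped ComplexOrder Topology BoundedContinuousFunction
open Filter

noncomputable section

namespace Pool.Agent.H270G.Stubs

open Pool.Agent.H467F Pool.Agent.H735G Pool.Agent.H270G

variable {A : Type} [CStarAlgebra A] {τ : A →ₗ[ℂ] ℂ}

/-- CEN -/
theorem ezp (h : TW τ) : EZP τ := sorry

/-- HALF -/
theorem half_pair (h : TW τ) (hA : NoAbA A) :
    ∃ s t : A, star s = s ∧ s * s = 1 ∧ star t = t ∧ t * t = 1 ∧ s * t = -(t * s) := sorry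

/-- REL: the relative commutant of finitely many pairs. -/
theorem relc (h : TW τ) (hA : NoAbA A) (s t : ℕ → A) (K : ℕ) (hp : PauK s t K) :
    ∃ (B : Type) (_ : CStarAlgebra B) (ι : B →⋆ₐ[ℂ] A) (σ : B →ₗ[ℂ] ℂ),
      TW σ ∧ NoAbA B ∧ Function.Injective ι ∧ (∀ b, ‖ι b‖ = ‖b‖) ∧ (∀ b, σ b = τ (ι b)) ∧
      (∀ x : A, (∀ j < K, s j * x = x * s j ∧ t j * x = x * t j) → ∃ b, ι b = x) ∧
      (∀ b, ∀ j < K, s j * ι b = ι b * s j ∧ t j * ι b = ι b * t j) ∧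
      (∀ b, ι (EZ σ b) = EZ τ (ι b)) := sorry

/-- PAUK: there are finite systems of every length. -/
theorem exists_pauK (h : TW τ) (hA : NoAbA A) (K : ℕ) : ∃ s t : ℕ → A, PauK s t K := sorry

/-- AVP: elementary properties of the averages. -/
theorem av_props (h : TW τ) (s t : ℕ → A) (K : ℕ) (hp : PauK s t K) :
    (∀ x y, av s t K (x + y) = av s t K x + av s t K y) ∧
    (∀ x y, av s t K (x - y) = av s t K x - av s t K y) ∧
    (∀ (c : ℂ) x, av s t K (c • x) = c • av s t K x) ∧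
    (∀ x, ‖av s t K x‖ ≤ ‖x‖) ∧
    (∀ x, n2 τ (av s t K x) ≤ n2 τ x) ∧
    (∀ x, EZ τ (av s t K x) = EZ τ x) ∧
    (∀ x, (∀ y, x * y = y * x) → av s t K x = x) ∧
    (∀ x, ∀ j < K, s j * av s t K x = av s t K x * s j ∧ t j * av s t K x = av s t K x * t j) ∧
    (∀ x, (∀ j < K, s j * x = x * s j ∧ t j * x = x * t j) → av s t K x = x) ∧
    (∀ x, ∀ j ≤ K, n2 τ (av s t K x - EZ τ x) ≤ n2 τ (av s t j x - EZ τ x)) := sorry

/-- DIX: averaging over unitaries in the 2-norm. -/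
theorem dix (h : TW τ) (Y T : A) (δ : ℝ) (hδ : 0 < δ) :
    ∃ w : unitary A, (τ (star (w : A) * Y * (w : A) * T)).re ≤ (τ (EZ τ Y * T)).re + δ := sorry

/-- AVG: one element can be averaged to its centre valued trace by a finite system. -/
theorem avg (h : TW τ) (hA : NoAbA A) (y : A) (ε : ℝ) (hε : 0 < ε) :
    ∃ (K : ℕ) (s t : ℕ → A), PauK s t K ∧ n2 τ (av s t K y - EZ τ y) ≤ ε := sorry

/-- SEQ: an infinite system which averages everything. -/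
theorem pau_seq (h : TW τ) (hS : SepT τ) (hA : NoAbA A) :
    ∃ s t : ℕ → A, (∀ K, PauK s t K) ∧
      ∀ y, Tendsto (fun k => n2 τ (av s t k y - EZ τ y)) atTop (𝓝 0) := sorry

/-- GEN2: the algebra of the pairs has two self-adjoint generators. -/
theorem two_gen (h : TW τ) (s t : ℕ → A) (hp : ∀ K, PauK s t K) :
    ∃ h₁ h₂ : A, star h₁ = h₁ ∧ star h₂ = h₂ ∧ h₁ ∈ NN s t ∧ h₂ ∈ NN s t ∧
      ∀ x ∈ NN s t, x ∈ Cl τ (StarAlgebra.adjoin ℂ {h₁, h₂} : Set A) := sorry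

/-- MIX: the Pauli strings form good families. -/
theorem mixing (h : TW τ) (s t : ℕ → A) (hp : ∀ K, PauK s t K)
    (hl : ∀ y, Tendsto (fun k => n2 τ (av s t k y - EZ τ y)) atTop (𝓝 0)) :
    Mixing τ (NN s t) := sorry

/-- W1: expansion of a word under one step. -/
theorem expand {J : Type} (c : Fin 4 → A) (hc : ∀ i, ‖c i‖ ≤ 1) (y : J → A) (hy : ∀ j, ‖y j‖ ≤ 1)
    (V : A) (hV : ‖V‖ ≤ 1) (hVs : star V = V) (b ε : ℝ) (hb0 : 0 ≤ b) (hb1 : b ≤ 1)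
    (hε : ε ^ 2 = 1) (hR : ‖rot V b ε‖ ≤ 1) (i : Fin 4) (L : List (Lt J)) :
    ‖wv (upd c i (rot V b ε)) y L - (wv c y L + (Complex.I * (b * ε : ℝ)) • D1 c y i V L -
      ((b ^ 2 : ℝ) : ℂ) • D2 c y i V L - (((cnt i L : ℝ) * b ^ 2 / 2 : ℝ) : ℂ) • wv c y L)‖ ≤
      5 * (L.length : ℝ) ^ 3 * b ^ 3 := sorry

/-- W1': bounds. -/
theorem wv_bounds {J : Type} (c : Fin 4 → A) (hc : ∀ i, ‖c i‖ ≤ 1) (y : J → A)
    (hy : ∀ j, ‖y j‖ ≤ 1) (V : A) (hV : ‖V‖ ≤ 1) (i : Fin 4) (L : List (Lt J)) :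
    ‖wv c y L‖ ≤ 1 ∧ ‖D1 c y i V L‖ ≤ L.length ∧ ‖D2 c y i V L‖ ≤ (L.length : ℝ) ^ 2 ∧
      cnt i L ≤ L.length := sorry

/-- W2a: structure of the first variation. -/
theorem ins1 {J : Type} (c : Fin 4 → A) (hc : ∀ i, ‖c i‖ ≤ 1) (y : J → A)
    (hy : ∀ j, ‖y j‖ ≤ 1) (i : Fin 4) (L : List (Lt J)) :
    ∃ l : List (A × A), l.length ≤ L.length ∧ (∀ p ∈ l, ‖p.1‖ ≤ 1 ∧ ‖p.2‖ ≤ 1) ∧
      ∀ V, D1 c y i V L = (l.map fun p => p.1 * V * p.2).sum := sorry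

/-- W2b: structure of the second variation. -/
theorem ins2 (h : TW τ) {J : Type} (c : Fin 4 → unitary A) (y : J → A)
    (hy : ∀ j, ‖y j‖ ≤ 1) (j1 : J) (hj1 : y j1 = 1) (i : Fin 4) (L : List (Lt J)) (hL : Red L) :
    ∃ l : List (A × A × A), l.length ≤ L.length ^ 2 ∧
      (∀ p ∈ l, ‖p.1‖ ≤ 1 ∧ ‖p.2.1‖ ≤ 1 ∧ ‖p.2.2‖ ≤ 1 ∧
        ∃ (j : J) (B : List (Lt J)), B ≠ [] ∧ B.length < L.length ∧ Red B ∧
          n2 τ (EZ τ p.2.1) = n2 τ (EZ τ (y j * wv (fun i => (c i : A)) y B))) ∧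
      ∀ V, D2 (fun i => (c i : A)) y i V L =
        (l.map fun p => p.1 * V * p.2.1 * V * p.2.2).sum := sorry

/-- W3: the average of one word over one step. -/
theorem one_step (h : TW τ) {J : Type} (c : Fin 4 → unitary A) (y : J → A)
    (hy : ∀ j, ‖y j‖ ≤ 1) (j1 : J) (hj1 : y j1 = 1) (i : Fin 4) (j0 : J) (L : List (Lt J))
    (hL : Red L) (S : ℝ) (hS0 : 0 ≤ S)
    (hS : ∀ (j : J) (B : List (Lt J)), B ≠ [] → B.length < L.length → Red B →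
      n2 τ (EZ τ (y j * wv (fun i => (c i : A)) y B)) ≤ S) :
    ∃ Y : Finset A, ∀ (G : Type) [Fintype G] [Nonempty G] (V : G → A),
      (∀ g, star (V g) = V g ∧ V g * V g = 1) → ∀ η : ℝ, 0 ≤ η →
      (∀ x ∈ Y, n2 τ ((Fintype.card G : ℂ)⁻¹ • (∑ g, V g * x * V g) - EZ τ x) ≤ η) →
      (∀ x ∈ Y, (Fintype.card G : ℝ)⁻¹ * ∑ g, n2 τ (EZ τ (V g * x)) ^ 2 ≤ η) →
      ∀ b : ℝ, 0 ≤ b → b ≤ 1 →
      (2 * (Fintype.card G : ℝ))⁻¹ * ∑ g,
          (n2 τ (EZ τ (y j0 * wv (upd (fun i => (c i : A)) i (rot (V g) b 1)) y L)) ^ 2 +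
           n2 τ (EZ τ (y j0 * wv (upd (fun i => (c i : A)) i (rot (V g) b (-1))) y L)) ^ 2) ≤
        (1 - (cnt i L : ℝ) * b ^ 2) * n2 τ (EZ τ (y j0 * wv (fun i => (c i : A)) y L)) ^ 2 +
        2 * b ^ 2 * (L.length : ℝ) ^ 2 * n2 τ (EZ τ (y j0 * wv (fun i => (c i : A)) y L)) * S +
        1000 * ((L.length : ℝ) + 1) ^ 6 * b ^ 3 + 1000 * ((L.length : ℝ) + 1) ^ 6 * η := sorry

/-- W5: the walk. -/
theorem walk (h : TW τ) (N : StarSubalgebra ℂ A) (hN : Mixing τ N) : Walk τ N := sorry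

/-- FS: packaging. -/
theorem freesys (h : TW τ) (hS : SepT τ) (N : StarSubalgebra ℂ A) (hW : Walk τ N) :
    Nonempty (FreeSys τ N) := sorry

/-- FINAL -/
theorem freeness : FreenessThm := by
  intro A _ τ h hS hA
  obtain ⟨s, t, hp, hl⟩ := pau_seq h hS hA
  obtain ⟨h₁, h₂, a1, a2, a3, a4, a5⟩ := two_gen h s t hp
  exact ⟨NN s t, h₁, h₂, a1, a2, a3, a4, a5, freesys h hS _ (walk h _ (mixing h s t hp hl))⟩

end Pool.Agent.H270G.Stubs
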